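import Pool.Agent.Q290.ER.Rep
import Pool.Agent.Q290.RL.MinkCore

/-!
# Multiplicities in the invariants of a normal subgroup
-/

set_option autoImplicit false
set_option linter.unusedSectionVars false

namespace Pool.Agent.Q290.ER

open Pool.Agent.H541R3.ART Pool.Agent.W446.AS Pool.Agent.Q7.SZ Pool.Agent.Q290.Schur
  Pool.Agent.Q92.RT Representation

section
variable {G : Type} [Group G] {V U : Type} [AddCommGroup V] [Module ℂ V]
  [AddCommGroup U] [Module ℂ U]

/-- equivariant maps from a representation trivial on `N` have values in the invariants -/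
noncomputable def homInvariants (N : Subgroup G) [N.Normal] (ρ : Representation ℂ G U)
    (σ : Representation ℂ G V) (h : ∀ x ∈ N, ρ x = 1) :
    IntertwiningMap ρ (σ.toInvariants N) ≃ₗ[ℂ] IntertwiningMap ρ σ where
  toFun f := ⟨(Submodule.subtype _) ∘ₗ f.toLinearMap, fun g => by
    ext v
    have h1 := LinearMap.congr_fun (f.isIntertwining' g) v
    exact congrArg Subtype.val h1⟩
  invFun f := ⟨LinearMap.codRestrict _ f.toLinearMap (fun v => by
      rw [Representation.mem_invariants]
      rintro ⟨x, hx⟩
      have h1 := LinearMap.congr_fun (f.isIntertwining' x) v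
      rw [h x hx] at h1
      exact h1.symm), fun g => by
    ext v
    have h1 := LinearMap.congr_fun (f.isIntertwining' g) v
    exact h1⟩
  map_add' f g := rfl
  map_smul' c f := rfl
  left_inv f := rfl
  right_inv f := rfl

variable [Finite G] [FiniteDimensional ℂ V]

theorem mlt_eq_finrank {n : ℕ} (ρ : Representation ℂ G (Fin n → ℂ)) (hρ : ρ.character ∈ Irr G)
    (σ : Representation ℂ G V) :
    mlt σ ρ.character = Module.finrank ℂ (IntertwiningMap ρ σ) := by
  classical
  have : Fintype G := Fintype.ofFinite G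
  have hH : (Nat.card G : ℂ) ≠ 0 := by exact_mod_cast Nat.card_pos.ne'
  have : Invertible (Nat.card G : ℂ) := invertibleOfNonzero hH
  have h2 := Representation.card_inv_mul_sum_char_mul_char_eq_finrank ρ σ
  have h3 : ∑ᶠ g : G, σ.character g * ρ.character g⁻¹ =
      (Module.finrank ℂ (IntertwiningMap ρ σ) : ℂ) * Nat.card G := by
    rw [← h2, finsum_eq_sum_of_fintype]
    field_simp
  exact_mod_cast mlt_unique σ hρ h3

theorem mlt_toInvariants (N : Subgroup G) [N.Normal] (σ : Representation ℂ G V) {χ : G → ℂ}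
    (hχ : χ ∈ Irr G) (h : ∀ x ∈ N, χ x = χ 1) :
    mlt (σ.toInvariants N) χ = mlt σ χ := by
  have hχ' := hχ
  obtain ⟨n, ρ, hρ, rfl⟩ := hχ
  rw [mlt_eq_finrank ρ hχ', mlt_eq_finrank ρ hχ']
  exact (homInvariants N ρ σ fun x hx => Pool.Agent.Y788.V.rep_triv ρ (h x hx)).finrank_eq

end

end Pool.Agent.Q290.ER
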