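import Mathlib
import Pool.Agent.Q7.RL.Model
import Pool.Agent.Q290.Schur.Crys
import Pool.Agent.Q290.Schur.TwReal

/-!
# The orders of `L(E ⊗ V, s)` for all representations `V` of the Galois group
-/

set_option autoImplicit false
set_option linter.unusedSectionVars false

namespace Pool.Agent.Q290.ER

open NumberField IsDedekindDomain TensorProduct Pool.Agent.H541R3.ART Pool.Agent.W446.AS
  Pool.Agent.Q7.SZ Pool.Agent.Q7.RL Pool.Agent.Q290.Schur Pool.Agent.Q92.RT Pool.Agent.W353.NF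
  Pool.Agent.H341R2.EC Representation

section
variable {G : Type} [Group G] [Finite G] {V U : Type} [AddCommGroup V] [Module ℂ V]
  [FiniteDimensional ℂ V] [AddCommGroup U] [Module ℂ U] [FiniteDimensional ℂ U]

theorem exists_rep_mult (σ : Representation ℂ G V) {χ : G → ℂ} (hχ : χ ∈ Irr G) :
    ∃ m : ℕ, ∑ᶠ g : G, σ.character g * χ g⁻¹ = (m : ℂ) * Nat.card G := by
  classical
  have : Fintype G := Fintype.ofFinite G
  obtain ⟨n', τ, hτ, rfl⟩ := hχ
  have hH : (Nat.card G : ℂ) ≠ 0 := by exact_mod_cast Nat.card_pos.ne'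
  have : Invertible (Nat.card G : ℂ) := invertibleOfNonzero hH
  have h := Representation.card_inv_mul_sum_char_mul_char_eq_finrank τ σ
  refine ⟨Module.finrank ℂ (Representation.IntertwiningMap τ σ), ?_⟩
  rw [← h, finsum_eq_sum_of_fintype]
  field_simp

open scoped Classical in
/-- the multiplicity of the irreducible character `χ` in `σ` -/
noncomputable def mlt (σ : Representation ℂ G V) (χ : G → ℂ) : ℕ :=
  if h : χ ∈ Irr G then (exists_rep_mult σ h).choose else 0

theorem mlt_spec (σ : Representation ℂ G V) {χ : G → ℂ} (hχ : χ ∈ Irr G) :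
    ∑ᶠ g : G, σ.character g * χ g⁻¹ = (mlt σ χ : ℂ) * Nat.card G := by
  unfold mlt
  rw [dif_pos hχ]
  exact (exists_rep_mult σ hχ).choose_spec

theorem mlt_unique (σ : Representation ℂ G V) {χ : G → ℂ} (hχ : χ ∈ Irr G) {z : ℂ}
    (h : ∑ᶠ g : G, σ.character g * χ g⁻¹ = z * Nat.card G) : (mlt σ χ : ℂ) = z := by
  have hH : (Nat.card G : ℂ) ≠ 0 := by exact_mod_cast Nat.card_pos.ne'
  rw [mlt_spec σ hχ] at h
  exact mul_right_cancel₀ hH h

theorem char_expand (σ : Representation ℂ G V) (g : G) :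
    σ.character g = ∑ χ ∈ irrF G, (mlt σ χ : ℂ) * χ g := by
  classical
  have : Fintype G := Fintype.ofFinite G
  refine class_expand (m := fun χ => (mlt σ χ : ℂ)) (fun g x => σ.char_conj g x)
    (fun χ hχ => ?_) g
  rw [← finsum_eq_sum_of_fintype]
  exact mlt_spec σ hχ

/-- the dimension of the space of equivariant maps -/
theorem finrank_hom (σ : Representation ℂ G V) (τ : Representation ℂ G U) :
    (Module.finrank ℂ (IntertwiningMap σ τ) : ℂ) =
      ∑ χ ∈ irrF G, (mlt σ χ : ℂ) * (mlt τ χ : ℂ) := by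
  classical
  have : Fintype G := Fintype.ofFinite G
  have hH : (Nat.card G : ℂ) ≠ 0 := by exact_mod_cast Nat.card_pos.ne'
  have : Invertible (Nat.card G : ℂ) := invertibleOfNonzero hH
  rw [← Representation.card_inv_mul_sum_char_mul_char_eq_finrank σ τ]
  have h1 : ∑ g : G, τ.character g * σ.character g⁻¹ =
      ∑ χ ∈ irrF G, (mlt σ χ : ℂ) * ∑ g : G, τ.character g * χ g⁻¹ := by
    simp_rw [char_expand σ, Finset.mul_sum]
    rw [Finset.sum_comm]
    refine Finset.sum_congr rfl fun χ _ => Finset.sum_congr rfl fun g _ => ?_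
    ring
  rw [h1, Finset.mul_sum]
  refine Finset.sum_congr rfl fun χ hχ => ?_
  have h2 := mlt_spec τ (mem_irrF.1 hχ)
  rw [finsum_eq_sum_of_fintype] at h2
  rw [h2]
  field_simp

/-- extension of scalars -/
noncomputable def cx {P : Type} [AddCommGroup P] [Module ℚ P] (ρ : Representation ℚ G P) :
    Representation ℂ G (ℂ ⊗[ℚ] P) where
  toFun g := LinearMap.baseChange ℂ (ρ g)
  map_one' := by
    rw [map_one]
    change LinearMap.baseChange ℂ (LinearMap.id : P →ₗ[ℚ] P) = _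
    rw [LinearMap.baseChange_id]
    rfl
  map_mul' g h := by
    rw [map_mul]
    change LinearMap.baseChange ℂ ((ρ g) ∘ₗ (ρ h)) = _
    rw [LinearMap.baseChange_comp]
    rfl

theorem cx_char {P : Type} [AddCommGroup P] [Module ℚ P] [FiniteDimensional ℚ P]
    (ρ : Representation ℚ G P) : (cx ρ).character = qtr ρ := by
  funext g
  change LinearMap.trace ℂ _ (LinearMap.baseChange ℂ (ρ g)) = _
  rw [LinearMap.trace_baseChange]
  rfl

end

section
variable {K : Type} [Field K] [NumberField K] {M : Type} [Field M] [NumberField M] [Algebra K M]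
  {W : WeierstrassCurve (𝓞 K)} {s₀ : ℂ} {V : Type} [AddCommGroup V] [Module ℂ V]
  [FiniteDimensional ℂ V]

theorem twistedL_rep (W : WeierstrassCurve (𝓞 K)) (σ : Representation ℂ (M ≃ₐ[K] M) V) {s : ℂ}
    (hs : 3 / 2 < s.re) :
    twistedL M W σ.character s =
      ∏ χ ∈ irrF (M ≃ₐ[K] M), twistedL M W χ s ^ mlt σ χ := by
  rw [← twistedL_sum W (irrF (M ≃ₐ[K] M)) (mlt σ) (fun χ => χ) hs]
  congr 1
  funext g
  exact char_expand σ g

theorem continues_rep (h : ∀ χ ∈ Irr (M ≃ₐ[K] M), ∃ f : ℂ → ℂ, Continues f (twistedL M W χ))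
    (σ : Representation ℂ (M ≃ₐ[K] M) V) :
    Continues (fun s => ∏ χ ∈ irrF (M ≃ₐ[K] M), cont (twistedL M W χ) s ^ mlt σ χ)
      (twistedL M W σ.character) := by
  refine ⟨fun s hs => ?_, fun s hs => ?_⟩
  · exact MeromorphicAt.fun_prod fun χ hχ =>
      ((cont_spec (h χ (mem_irrF.1 hχ))).1 s hs).fun_pow _
  · rw [twistedL_rep W σ hs]
    exact Finset.prod_congr rfl fun χ hχ => by rw [(cont_spec (h χ (mem_irrF.1 hχ))).2 s hs]

/-- the order of `L(E ⊗ V, s)` -/
theorem hasOrder_rep {E : WeierstrassCurve K} {n : ((M ≃ₐ[K] M) → ℂ) → ℤ}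
    {r : IntermediateField K M → ℤ} (ho : Orders E W s₀ n r) (a : Automorphic M W s₀)
    (σ : Representation ℂ (M ≃ₐ[K] M) V) :
    HasOrder (twistedL M W σ.character) s₀ (∑ χ ∈ irrF (M ≃ₐ[K] M), (mlt σ χ : ℤ) * n χ) := by
  refine ⟨_, continues_rep a.mero σ, ?_⟩
  have hm : ∀ χ ∈ irrF (M ≃ₐ[K] M), MeromorphicAt (cont (twistedL M W χ)) s₀ := fun χ hχ =>
    (cont_spec (a.mero χ (mem_irrF.1 hχ))).1 s₀ (Set.mem_univ _)
  have e : (fun s => ∏ χ ∈ irrF (M ≃ₐ[K] M), cont (twistedL M W χ) s ^ mlt σ χ) =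
      fun s => ∏ χ ∈ irrF (M ≃ₐ[K] M), (cont (twistedL M W χ) ^ mlt σ χ) s := rfl
  rw [e, meromorphicOrderAt_fun_prod (fun χ hχ => (hm χ hχ).pow _), WithTop.coe_sum]
  refine Finset.sum_congr rfl fun χ hχ => ?_
  rw [meromorphicOrderAt_pow (hm χ hχ)]
  have h1 := ho.irr a (mem_irrF.1 hχ)
  change meromorphicOrderAt (cont (twistedL M W χ)) s₀ = _ at h1
  rw [h1]
  push_cast
  rfl

open scoped Classical in
/-- The representation of the Galois group of `M/K` on `ℂ ⊗ E(M)`. -/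
noncomputable def mwC (E : WeierstrassCurve K) (M : Type) [Field M] [Algebra K M] :
    Representation ℂ (M ≃ₐ[K] M) (ℂ ⊗[ℚ] (ℚ ⊗[ℤ] (E.baseChange M).toAffine.Point)) :=
  cx (mw E M)

end

end Pool.Agent.Q290.ER
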