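import Mathlib
import Pool.Agent.Q290.Schur.CenThree

/-! Zeros of order three at the centre: the formal statement. -/

set_option autoImplicit false
set_option linter.unusedSectionVars false

namespace Pool.Agent.Q290.ER.Three

open Pool.Agent.H302R2 Pool.Agent.H302R3 Pool.Agent.H541R3.ART Pool.Agent.W446.AS
  Pool.Agent.H302R5 Pool.Agent.H302R6 Pool.Agent.Q7.TZ Pool.Agent.Q7.SZ Pool.Agent.Q290.Schur

/-- the order of `L(E ⊗ χ, s)` at `s = 1` is zero, or one and `χ` is orthogonal -/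
def Simple {G : Type} [Group G] (A : TwistData G 1) (χ : G → ℂ) : Prop :=
  A.ord χ = 0 ∨ (Ort χ ∧ A.ord χ = 1)

/-- The pattern with poles: `χ₀` and its dual (which may be `χ₀` itself, then `χ₀` is orthogonal)
have simple poles, `ε` has a zero of order one or two, and at most `4 - ord ε` (`3 - ord ε` if `χ₀`
is not self-dual) other characters, all orthogonal, have simple zeros. -/
def PolePattern {G : Type} [Group G] (A : TwistData G 1) (ε : G →* ℂˣ) : Prop :=
  (A.ord (lc ε) = 1 ∨ A.ord (lc ε) = 2) ∧ ∃ χ₀ ∈ Irr G, A.ord χ₀ = -1 ∧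
    A.ord (fun g => χ₀ g⁻¹) = -1 ∧
    (∀ (H : Subgroup G) (ψ : H →* ℂˣ), ¬ IsInduced H (lc ψ) χ₀) ∧
    (∀ χ ∈ Irr G, χ ≠ lc ε → χ ≠ χ₀ → χ ≠ (fun g => χ₀ g⁻¹) → Simple A χ) ∧
    ((Ort χ₀ ∧ A.ord (lc ε) + {χ | χ ∈ Irr G ∧ χ ≠ lc ε ∧ χ ≠ χ₀ ∧ A.ord χ ≠ 0}.ncard ≤ 4) ∨
      ((fun g => χ₀ g⁻¹) ≠ χ₀ ∧ A.ord (lc ε) + {χ | χ ∈ Irr G ∧ χ ≠ lc ε ∧ χ ≠ χ₀ ∧
        χ ≠ (fun g => χ₀ g⁻¹) ∧ A.ord χ ≠ 0}.ncard ≤ 3))

variable {G : Type} [Group G] [Finite G]

theorem result {A : TwistData G 1} (F : FunEq A)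
    (hr : meromorphicOrderAt (A.Lin ⊥ 1) 1 = ((3 : ℕ) : WithTop ℤ)) :
    -- all fields between `K` and `M`, all linear characters
    (∀ (H : Subgroup G) (ψ : H →* ℂˣ), 0 ≤ meromorphicOrderAt (A.Lin H ψ) 1) ∧
    -- monomial characters
    (∀ χ ∈ Irr G, ∀ (H : Subgroup G) (ψ : H →* ℂˣ), IsInduced H (lc ψ) χ →
      0 ≤ meromorphicOrderAt (A.L χ) 1) ∧
    -- all characters of solvable subgroups
    (∀ H : Subgroup G, Group.IsSolvable H → ∀ ψ ∈ Irr H, ∀ m : (G → ℂ) → ℕ,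
      (∀ χ ∈ Irr G, ∑ᶠ h : H, χ h * ψ h⁻¹ = (m χ : ℂ) * (Nat.card H : ℂ)) →
      0 ≤ meromorphicOrderAt (fun s => ∏ᶠ χ ∈ Irr G, A.L χ s ^ m χ) 1) ∧
    -- solvable extensions
    (Group.IsSolvable G → ∀ χ ∈ Irr G, 0 ≤ meromorphicOrderAt (A.L χ) 1) ∧
    -- the list of all possibilities
    ∃ ε : G →* ℂˣ, ε * ε = 1 ∧
      ((A.ord (lc ε) = 3 ∧ ∀ χ ∈ Irr G, χ ≠ lc ε → A.ord χ = 0) ∨
      ((∀ χ ∈ Irr G, Simple A χ) ∧ A.ord (lc ε) = 0 ∧ {χ | χ ∈ Irr G ∧ A.ord χ ≠ 0}.ncard ≤ 3) ∨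
      (A.ord (lc ε) = 1 ∧ ∃ μ : G →* ℂˣ, μ ≠ ε ∧ μ * μ = 1 ∧ A.ord (lc μ) = 2 ∧
        ∀ χ ∈ Irr G, χ ≠ lc ε → χ ≠ lc μ → A.ord χ = 0) ∨
      (A.ord (lc ε) = 1 ∧ ∃ l : G →* ℂˣ, l * l ≠ 1 ∧ A.ord (lc l) = 1 ∧ A.ord (lc l⁻¹) = 1 ∧
        ∀ χ ∈ Irr G, χ ≠ lc ε → χ ≠ lc l → χ ≠ lc l⁻¹ → A.ord χ = 0) ∨
      (¬ Group.IsSolvable G ∧ PolePattern A ε)) := by
  classical
  have h1 : (theta A.ord : G → ℂ) 1 = 3 := by
    have := A.theta_one hr
    push_cast at this
    exact this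
  have hinv : ∀ χ ∈ Irr G, A.ord (fun g => χ g⁻¹) = A.ord χ := fun χ hχ => F.ord_inv hχ
  have hsolv : Group.IsSolvable G → ∀ χ ∈ Irr G, 0 ≤ A.ord χ := by
    intro hG χ hχ
    have hv : Virt (theta A.ord : G → ℂ) := theta_virt _
    have hev : EvP (theta A.ord : G → ℂ) := by
      intro χ hχ hs
      obtain ⟨k, hk⟩ := F.ord_even hχ hs
      refine ⟨k, ?_⟩
      rw [pr_theta A.ord hχ, hk]
      push_cast
      ring
    obtain ⟨k, hk⟩ := solmain _ G rfl hG _ (A.isSol.comp_sol hG (MonoidHom.id G)) hv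
      (fun g => F.theta_real g) ⟨3, le_rfl, by rw [MonoidHom.id_apply, h1]; norm_num⟩ hev χ hχ
    have h2 : pr (theta A.ord) χ = k := hk
    rw [pr_theta A.ord hχ] at h2
    have h3 : A.ord χ = k := by exact_mod_cast h2
    rw [h3]
    exact Int.natCast_nonneg k
  refine ⟨three_lin F hr, fun χ hχ H ψ h => ?_, fun H hH ψ hψ m hm => three_prod F hr H hH hψ m hm,
    fun hG χ hχ => ?_, ?_⟩
  · rw [← A.coe_ord hχ]
    exact_mod_cast three_mono F hr hχ ψ h
  · rw [← A.coe_ord hχ]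
    exact_mod_cast hsolv hG χ hχ
  obtain ⟨ε, -, hεε, hcase⟩ := three_class A.ord A.isSol h1 F.theta_real
  have hlight : ∀ χ ∈ Irr G, Light A.ord χ → Simple A χ := by
    intro χ hχ h
    rcases h with h | h | ⟨h, h'⟩
    · exact Or.inl h
    · exact Or.inr h
    · exfalso
      have := F.ord_even hχ h
      rw [h'] at this
      exact absurd this (by decide)
  refine ⟨ε, hεε, ?_⟩
  rcases hcase with h | ⟨h0, hL, hc⟩ | ⟨h3, μ, hμ⟩ | h | h
  · exact Or.inl h
  · exact Or.inr (Or.inl ⟨fun χ hχ => hlight χ hχ (hL χ hχ), h0, hc⟩)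
  · exact Or.inr (Or.inr (Or.inl ⟨h3, μ, hμ⟩))
  · obtain ⟨h12, χ₀, hχ₀, hne, hc, hL, hcount⟩ := h
    have hc' : Ort χ₀ ∧ A.ord χ₀ = -1 := by
      rcases hc with hc | ⟨hc, hc'⟩
      · exact hc
      · exfalso
        have := F.ord_even hχ₀ hc
        rw [hc'] at this
        exact absurd this (by decide)
    obtain ⟨ho, hn⟩ := hc'
    refine Or.inr (Or.inr (Or.inr (Or.inr ⟨fun hG => ?_, h12, χ₀, hχ₀, hn, ?_, ?_, ?_,
      Or.inl ⟨ho, hcount⟩⟩)))
    · have := hsolv hG χ₀ hχ₀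
      omega
    · rw [hinv χ₀ hχ₀, hn]
    · intro H ψ h
      have := three_mono F hr hχ₀ ψ h
      omega
    · intro χ hχ h2 h3 _
      exact hlight χ hχ (hL χ hχ h2 h3)
  · obtain ⟨h12, χ₀, hχ₀, hne, hd, hc, hL, hcount⟩ := h
    rcases hc with hc | hc
    · -- simple zeros
      right; right; right; left
      set χ₁ : G → ℂ := fun g => χ₀ g⁻¹ with hχ₁
      have hχ₁I : χ₁ ∈ Irr G := Pool.Agent.Q7.DB.irr_inv hχ₀
      have hc1 : A.ord χ₁ = 1 := by rw [hd, hc]
      have hne01 : χ₀ ≠ χ₁ := fun h => hne h.symm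
      have hεinv : (fun g => lc ε g⁻¹) = lc ε := funext (ind_lin ε hεε).1
      have hE0 : lc ε ≠ χ₀ := by
        intro h
        apply hne
        rw [hχ₁, ← h]
        exact hεinv
      have hE1 : lc ε ≠ χ₁ := by
        intro h
        apply hne
        have h2 : χ₀ = lc ε := by
          rw [← hεinv, h, hχ₁]
          funext g
          simp
        rw [hχ₁, h2]
        exact hεinv
      obtain ⟨d, hd0, hdχ⟩ := irr_deg_pos hχ₀
      have hnn : ∀ χ ∈ Irr G, 0 ≤ A.ord χ := by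
        intro χ hχ
        by_cases ha : χ = lc ε
        · rw [ha]
          rcases h12 with h | h
          · have h' : A.ord (lc ε) = 1 := h
            omega
          · have h' : A.ord (lc ε) = 2 := h
            omega
        by_cases hb : χ = χ₀
        · rw [hb]; omega
        by_cases hb' : χ = χ₁
        · rw [hb']; omega
        rcases hlight χ hχ (hL χ hχ ha hb hb') with h | ⟨-, h⟩ <;> omega
      choose! e he using fun χ (hχ : χ ∈ Irr G) => irr_deg_pos hχ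
      have hsum : ∑ χ ∈ irrF G, A.ord χ * e χ = 3 := by
        have h2 : ∑ χ ∈ irrF G, (A.ord χ : ℂ) * e χ = 3 := by
          rw [← h1, theta]
          refine Finset.sum_congr rfl fun χ hχ => ?_
          rw [(he χ (mem_irrF.mp hχ)).2]
        exact_mod_cast h2
      have hterm : ∀ χ ∈ irrF G, 0 ≤ A.ord χ * e χ := fun χ hχ =>
        mul_nonneg (hnn χ (mem_irrF.mp hχ)) (Int.natCast_nonneg _)
      have hsub : ∀ S : Finset (G → ℂ), S ⊆ irrF G → ∑ χ ∈ S, A.ord χ * e χ ≤ 3 := by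
        intro S hS
        rw [← hsum]
        exact Finset.sum_le_sum_of_subset_of_nonneg hS (fun χ hχ _ => hterm χ hχ)
      have hεI : lc ε ∈ Irr G := irr_of_lin ε
      have heε : e (lc ε) = 1 := by
        have h2 := (he (lc ε) hεI).2
        have h3 : lc ε 1 = 1 := by simp
        rw [h3] at h2
        exact_mod_cast h2.symm
      have he01 : e χ₁ = e χ₀ := by
        have h2 := (he χ₁ hχ₁I).2
        have h3 := (he χ₀ hχ₀).2
        have h4 : χ₁ 1 = χ₀ 1 := by rw [hχ₁]; simp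
        rw [h4, h3] at h2
        exact_mod_cast h2.symm
      have hmemE := mem_irrF.mpr hεI
      have hmem0 := mem_irrF.mpr hχ₀
      have hmem1 := mem_irrF.mpr hχ₁I
      have h3S := hsub {lc ε, χ₀, χ₁} (by
        intro χ hχ
        simp only [Finset.mem_insert, Finset.mem_singleton] at hχ
        rcases hχ with h | h | h <;> rw [h] <;> assumption)
      rw [Finset.sum_insert (by simp [hE0, hE1]), Finset.sum_pair hne01, heε, he01, hc, hc1] at h3S
      have he0 := (he χ₀ hχ₀).1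
      have hE12 : A.ord (lc ε) = 1 ∨ A.ord (lc ε) = 2 := h12
      push_cast at h3S
      have hE1' : A.ord (lc ε) = 1 := by
        rcases hE12 with h | h <;> omega
      have he1 : e χ₀ = 1 := by omega
      have hχ01 : χ₀ 1 = 1 := by rw [(he χ₀ hχ₀).2, he1]; simp
      obtain ⟨l, hl⟩ := Pool.Agent.Q7.SZ.exists_lin hχ₀ hχ01
      have hl' : χ₀ = lc l := hl
      have hli : χ₁ = lc l⁻¹ := by
        rw [hχ₁, hl']
        funext g
        change ((l g⁻¹ : ℂˣ) : ℂ) = (((l g)⁻¹ : ℂˣ) : ℂ)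
        rw [map_inv]
      refine ⟨hE1', l, ?_, by rw [← hl']; exact hc, by rw [← hli]; exact hc1, ?_⟩
      · intro h
        apply hne
        rw [hχ₁, hl']
        exact funext (ind_lin l h).1
      · intro χ hχ ha hb hb'
        rw [← hl'] at hb
        rw [← hli] at hb'
        by_contra h0
        have h4S := hsub {χ, lc ε, χ₀, χ₁} (by
          intro φ hφ
          simp only [Finset.mem_insert, Finset.mem_singleton] at hφ
          rcases hφ with h | h | h | h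
          · rw [h]; exact mem_irrF.mpr hχ
          · rw [h]; exact hmemE
          · rw [h]; exact hmem0
          · rw [h]; exact hmem1)
        rw [Finset.sum_insert (by simp [ha, hb, hb']), Finset.sum_insert (by simp [hE0, hE1]),
          Finset.sum_pair hne01, heε, he01, hc, hc1, hE1', he1] at h4S
        have h5 := hnn χ hχ
        have h6 := (he χ hχ).1
        have h7 : 0 < A.ord χ * e χ := by
          apply mul_pos
          · omega
          · exact_mod_cast h6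
        push_cast at h4S
        omega
    · -- poles
      refine Or.inr (Or.inr (Or.inr (Or.inr ⟨fun hG => ?_, h12, χ₀, hχ₀, hc, ?_, ?_, ?_,
        Or.inr ⟨hne, hcount⟩⟩)))
      · have := hsolv hG χ₀ hχ₀
        omega
      · rw [hinv χ₀ hχ₀, hc]
      · intro H ψ h
        have := three_mono F hr hχ₀ ψ h
        omega
      · intro χ hχ h2 h3 h4
        exact hlight χ hχ (hL χ hχ h2 h3 h4)

end Pool.Agent.Q290.ER.Three
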